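import Pool.Agent.H70.SC.Grow
import Pool.Agent.H70.CP.Count
import Pool.Agent.H70.CP.Num

/-!
# A closed walk or a large reach set

Suppose that every set `B` with all inner sums at least `c (|B| - 1)` carries a closed walk. If there
is no closed walk, every nonempty `R` has a vertex `f R` with inner sum at most `c (|R| - 1)`. Start
with `R = {v}` and add to `R` all `y` with `τ < s (f R) y`, one threshold `τ < K` after the other, as
long as the number `a T` of the used thresholds `< T` is less than `T` for `1 ≤ T ≤ K`. Then `R` stays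
in the reach set of `v`, and the mean growth gives `|reach v| - |R| ≥ Yp a (|reach v| - 1)`.
-/

set_option autoImplicit false

namespace Pool.Agent.H70.CR

open Finset Pool.Agent.H81.RD Pool.Agent.H81.RE Pool.Agent.H70.SC Pool.Agent.H70.CP

open Classical in
/-- the potential -/
noncomputable def Yp (c κ : ℝ) (K : ℕ) : ℕ → (ℕ → ℕ) → ℝ
  | 0, _ => 0
  | n + 1, a =>
      if ok K a 0 then (κ + ∑ τ : Fin K, Yp c κ K n (upd a τ)) / (K - c) else 0

theorem Yp_eq {c κ : ℝ} {K : ℕ} (hK : 0 < K) (hcK : c < K) (n : ℕ) : ∀ a : ℕ → ℕ,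
    Yp c κ K n a = κ / (K - c) * ∑ i ∈ range n, (K / (K - c)) ^ i * PP K 0 i a := by
  classical
  have hKr : (K : ℝ) ≠ 0 := by positivity
  have hKc : (K : ℝ) - c ≠ 0 := by linarith
  induction n with
  | zero => intro a; simp [Yp]
  | succ n ih =>
    intro a
    by_cases h : ok K a 0
    · rw [Yp, if_pos h, sum_congr rfl fun τ _ => ih _, ← mul_sum, sum_comm, sum_range_succ']
      have h1 : ∀ i ∈ range n, ∑ τ : Fin K, ((K : ℝ) / (K - c)) ^ i * PP K 0 i (upd a τ) =
          (K - c) * (((K : ℝ) / (K - c)) ^ (i + 1) * PP K 0 (i + 1) a) := by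
        intro i _
        rw [← mul_sum, PP, pow_succ]
        field_simp
      have h2 : PP K 0 0 a = 1 := by
        unfold PP
        rw [if_pos h]
      rw [sum_congr rfl h1, ← mul_sum, h2, pow_zero]
      field_simp
      ring
    · have h0 : ∑ i ∈ range (n + 1), ((K : ℝ) / (K - c)) ^ i * PP K 0 i a = 0 :=
        sum_eq_zero fun i _ => by rw [PP_of_not_ok i a h, mul_zero]
      rw [Yp, if_neg h, h0, mul_zero]

/-- the lower bound for the potential -/
theorem Yp_large {c κ : ℝ} (hc : 0 < c) (hκ : 0 < κ) (hnum : c ^ 2 < κ * (Real.exp c - 1 - c))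
    {K : ℕ} (hK : 2 ≤ K) (hcK : c < K) : 1 < Yp c κ K K (fun _ => 0) := by
  obtain ⟨k, rfl⟩ : ∃ k, K = k + 2 := ⟨K - 2, by omega⟩
  have hKc : (0 : ℝ) < ((k + 2 : ℕ) : ℝ) - c := by linarith
  have hK0 : (0 : ℝ) < ((k + 2 : ℕ) : ℝ) := by positivity
  rw [Yp_eq (by omega) hcK]
  obtain ⟨K, hKK⟩ : ∃ K : ℝ, K = ((k + 2 : ℕ) : ℝ) := ⟨_, rfl⟩
  obtain ⟨ρ, hρ⟩ : ∃ ρ : ℝ, ρ = K / (K - c) := ⟨_, rfl⟩
  rw [← hKK] at hKc hK0 ⊢
  rw [← hρ]
  have hρ0 : 0 < ρ := by rw [hρ]; positivity
  have h1 : ∑ i ∈ range (k + 2), ρ ^ i * (K - i) / K ≤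
      ∑ i ∈ range (k + 2), ρ ^ i * PP (k + 2) 0 i (fun _ => 0) := by
    refine sum_le_sum fun i hi => ?_
    rw [mem_range] at hi
    have h2 := PP_zero_ge k i (by omega)
    have h3 : (k : ℝ) + 2 = K := by rw [hKK]; push_cast; ring
    rw [h3] at h2
    rw [mul_div_assoc]
    exact mul_le_mul_of_nonneg_left h2 (by positivity)
  have h2 := sum_lin ρ (k + 2)
  rw [← hKK] at h2
  have h3 : 1 - ρ = -c / (K - c) := by
    rw [hρ]
    field_simp
    ring
  have h4 : Real.exp c ≤ ρ ^ (k + 2) := by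
    have h5 : Real.exp (c / K) ≤ ρ := by
      have h6 := Real.add_one_le_exp (-(c / K))
      have h7 : -(c / K) + 1 = ρ⁻¹ := by
        rw [hρ]
        field_simp
        ring
      rw [h7] at h6
      have h8 := inv_anti₀ (inv_pos.mpr hρ0) h6
      rw [inv_inv, ← Real.exp_neg, neg_neg] at h8
      exact h8
    have h6 := pow_le_pow_left₀ (Real.exp_pos _).le h5 (k + 2)
    rw [← Real.exp_nat_mul, ← hKK] at h6
    have h7 : K * (c / K) = c := by field_simp
    rw [h7] at h6
    exact h6
  have h5 : ∑ i ∈ range (k + 2), ρ ^ i * (K - i) / K =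
      (K - c) * (ρ ^ (k + 2) - 1 - c) / c ^ 2 := by
    rw [← sum_div]
    obtain ⟨S, hS⟩ : ∃ S, S = ∑ i ∈ range (k + 2), ρ ^ i * (K - i) := ⟨_, rfl⟩
    rw [← hS] at h2 ⊢
    rw [h3] at h2
    obtain ⟨P, hP⟩ : ∃ P, P = ρ ^ (k + 2) := ⟨_, rfl⟩
    rw [← hP] at h2 ⊢
    rw [hρ] at h2
    field_simp at h2 ⊢
    linarith
  have h6 : 1 < κ / (K - c) * ((K - c) * (ρ ^ (k + 2) - 1 - c) / c ^ 2) := by
    have e : κ / (K - c) * ((K - c) * (ρ ^ (k + 2) - 1 - c) / c ^ 2) =
        κ * (ρ ^ (k + 2) - 1 - c) / c ^ 2 := by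
      field_simp
    rw [e, lt_div_iff₀ (by positivity), one_mul]
    have := mul_le_mul_of_nonneg_left h4 hκ.le
    linarith
  refine h6.trans_le (mul_le_mul_of_nonneg_left ?_ (by positivity))
  rw [← h5]
  exact h1

variable {V : Type} [Fintype V] [DecidableEq V]

/-- the sum of the sizes after one step -/
theorem sum_card_stp {s : V → V → ℕ} {f : Finset V → V} {K : ℕ} {R : Finset V}
    (hK : ∀ y, s (f R) y ≤ K) :
    ∑ τ : Fin K, ((stp s univ f R τ).card : ℝ) =
      K * (R.card : ℝ) + ∑ y ∈ univ \ R, (s (f R) y : ℝ) := by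
  have h1 : ∀ τ : Fin K, ((stp s univ f R τ).card : ℝ) =
      (R.card : ℝ) + ∑ y ∈ univ \ R, if (τ : ℕ) < s (f R) y then (1 : ℝ) else 0 := by
    intro τ
    unfold stp
    rw [card_union_of_disjoint, Nat.cast_add, sum_boole]
    exact disjoint_of_subset_right (filter_subset _ _) disjoint_sdiff
  rw [sum_congr rfl fun τ _ => h1 τ, sum_add_distrib, sum_const, card_univ, Fintype.card_fin,
    nsmul_eq_mul, sum_comm]
  congr 1
  refine sum_congr rfl fun y _ => ?_
  rw [sum_boole]
  have h2 : ((univ : Finset (Fin K)).filter fun τ : Fin K => (τ : ℕ) < s (f R) y).card +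
      ((univ : Finset (Fin K)).filter fun τ : Fin K => ¬ (τ : ℕ) < s (f R) y).card = K := by
    rw [card_filter_add_card_filter_not, card_univ, Fintype.card_fin]
  have h3 := card_le_val (hK y)
  simp only [not_lt] at h2
  have h4 : ((univ : Finset (Fin K)).filter fun τ : Fin K => (τ : ℕ) < s (f R) y).card =
      s (f R) y := by
    have := hK y
    omega
  rw [h4]

/-- the induction -/
theorem Yp_le {s : V → V → ℕ} {f : Finset V → V} {v : V} {K : ℕ} {c lam m : ℝ}
    (hcK : c < K) (hf : ∀ R : Finset V, R.Nonempty →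
      f R ∈ R ∧ ∑ y ∈ R, (s (f R) y : ℝ) ≤ c * ((R.card : ℝ) - 1))
    (hK : ∀ u y, s u y ≤ K) (hm : ∀ u, m ≤ ∑ y, (s u y : ℝ))
    (hr : lam * (((reach s v).card : ℝ) - 1) ≤ m) (n : ℕ) :
    ∀ (a : ℕ → ℕ) (R : Finset V), R.Nonempty → (∀ T, a T ≤ T) → (∀ T, K ≤ T → a T ≤ a K) →
      (∀ y ∈ R, ∃ (N : ℕ → ℕ) (M : ℕ), W s v N M y ∧ ∀ T, N T ≤ a T) →
      Yp c (lam - c) K n a * (((reach s v).card : ℝ) - 1) ≤
        ((reach s v).card : ℝ) - R.card := by
  classical
  have hbase : ∀ (a : ℕ → ℕ) (R : Finset V), (∀ T, a T ≤ T) →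
      (∀ y ∈ R, ∃ (N : ℕ → ℕ) (M : ℕ), W s v N M y ∧ ∀ T, N T ≤ a T) →
      0 ≤ ((reach s v).card : ℝ) - R.card := by
    intro a R ha hR
    have h1 : R ⊆ reach s v := by
      intro y hy
      obtain ⟨N, M, hW, hN⟩ := hR y hy
      exact mem_reach.mpr ⟨N, M, hW, fun T => (hN T).trans (ha T)⟩
    have h2 : (R.card : ℝ) ≤ (reach s v).card := by exact_mod_cast card_le_card h1
    linarith
  induction n with
  | zero =>
    intro a R hne ha haK hR
    rw [Yp, zero_mul]
    exact hbase a R ha hR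
  | succ n ih =>
    intro a R hne ha haK hR
    by_cases h : ok K a 0
    · have hKc : (0 : ℝ) < (K : ℝ) - c := by linarith
      have hstep : ∀ τ : Fin K,
          Yp c (lam - c) K n (upd a τ) * (((reach s v).card : ℝ) - 1) ≤
            ((reach s v).card : ℝ) - (stp s univ f R τ).card := by
        intro τ
        have hτ := τ.isLt
        refine ih (upd a τ) (stp s univ f R τ) (stp_nonempty hne _) ?_ ?_ ?_
        · intro T
          unfold upd
          by_cases h1 : (τ : ℕ) < T
          · rw [if_pos h1]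
            rcases Nat.lt_or_ge K T with h2 | h2
            · have h3 := haK T h2.le
              have h4 := h K (by omega) le_rfl
              omega
            · have := h T (by omega) h2
              omega
          · rw [if_neg h1]
            exact ha T
        · intro T hT
          unfold upd
          rw [if_pos (by omega), if_pos hτ]
          have := haK T hT
          omega
        · intro y hy
          unfold stp at hy
          rw [mem_union] at hy
          rcases hy with hy | hy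
          · obtain ⟨N, M, hW, hN⟩ := hR y hy
            exact ⟨N, M, hW, fun T => (hN T).trans (by unfold upd; exact Nat.le_add_right _ _)⟩
          · rw [mem_filter] at hy
            obtain ⟨N, M, hW, hN⟩ := hR (f R) (hf R hne).1
            refine ⟨_, _, W.step hW (lt_of_le_of_lt (Nat.zero_le _) hy.2), fun T => ?_⟩
            have h1 := hN T
            have h2 : (if s (f R) y ≤ T then 1 else 0) ≤ if (τ : ℕ) < T then 1 else 0 := by
              by_cases h3 : s (f R) y ≤ T
              · rw [if_pos h3, if_pos (lt_of_lt_of_le hy.2 h3)]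
              · rw [if_neg h3]
                exact Nat.zero_le _
            unfold upd
            omega
      have h1 := sum_le_sum fun (τ : Fin K) (_ : τ ∈ univ) => hstep τ
      rw [← sum_mul, sum_sub_distrib, sum_card_stp (fun y => hK _ _), sum_const, card_univ,
        Fintype.card_fin, nsmul_eq_mul] at h1
      have h2 : ∑ y ∈ univ \ R, (s (f R) y : ℝ) + ∑ y ∈ R, (s (f R) y : ℝ) =
          ∑ y, (s (f R) y : ℝ) := sum_sdiff (subset_univ R)
      have h3 := (hf R hne).2
      have h4 := hm (f R)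
      rw [Yp, if_pos h, div_mul_eq_mul_div, div_le_iff₀ hKc]
      linarith
    · rw [Yp, if_neg h, zero_mul]
      exact hbase a R ha hR

/-- **A closed walk or large reach sets.** -/
theorem closed_or_reach {s : V → V → ℕ} (hs0 : ∀ u, s u u = 0) {c lam m : ℝ} (hc : 0 < c)
    (hlam : c < lam) (hnum : c ^ 2 < (lam - c) * (Real.exp c - 1 - c))
    (hclosed : ∀ B : Finset V, 2 ≤ B.card →
      (∀ u ∈ B, c * ((B.card : ℝ) - 1) ≤ ∑ y ∈ B, (s u y : ℝ)) →
      ∃ (v : V) (N : ℕ → ℕ) (L : ℕ), 0 < L ∧ W s v N L v ∧ ∀ T : ℕ, N T ≤ T)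
    (hm : ∀ u, m ≤ ∑ y, (s u y : ℝ)) :
    (∃ (v : V) (N : ℕ → ℕ) (L : ℕ), 0 < L ∧ W s v N L v ∧ ∀ T : ℕ, N T ≤ T) ∨
      ∀ v : V, m ≤ lam * (((reach s v).card : ℝ) - 1) := by
  rw [or_iff_not_imp_left]
  intro hno v
  by_contra hbig
  push Not at hbig
  have hr1 : (1 : ℝ) ≤ (reach s v).card := by
    exact_mod_cast card_pos.mpr ⟨v, self_mem_reach s v⟩
  have hm0 : 0 < m := by
    have := mul_nonneg (hc.trans hlam).le (by linarith : (0 : ℝ) ≤ ((reach s v).card : ℝ) - 1)
    linarith
  have hrpos : 0 < ((reach s v).card : ℝ) - 1 := by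
    have h4 : ∃ y, 0 < s v y := by
      by_contra h5
      push Not at h5
      have h6 : ∑ y, (s v y : ℝ) = 0 := sum_eq_zero fun y _ => by
        have := h5 y
        have h7 : s v y = 0 := by omega
        rw [h7]
        simp
      have h7 := hm v
      rw [h6] at h7
      linarith
    obtain ⟨y, hy⟩ := h4
    have hne : v ≠ y := by
      rintro rfl
      rw [hs0] at hy
      omega
    have h5 : 2 ≤ (reach s v).card := by
      rw [← card_pair hne]
      refine card_le_card fun z hz => ?_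
      rw [mem_insert, mem_singleton] at hz
      rcases hz with rfl | rfl
      · exact self_mem_reach s z
      · exact out_mem_reach hy
    have h6 : (2 : ℝ) ≤ (reach s v).card := by exact_mod_cast h5
    linarith
  -- the vertices with a small inner sum
  have hf : ∀ R : Finset V, ∃ u : V, R.Nonempty →
      u ∈ R ∧ ∑ y ∈ R, (s u y : ℝ) ≤ c * ((R.card : ℝ) - 1) := by
    intro R
    by_cases h2 : R.Nonempty
    · have hR1 : 1 ≤ R.card := card_pos.mpr h2
      rcases Nat.lt_or_ge R.card 2 with h1 | h1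
      · have h3 : R.card = 1 := by omega
        obtain ⟨b, hb⟩ := card_eq_one.mp h3
        refine ⟨b, fun _ => ⟨by rw [hb]; exact mem_singleton_self b, ?_⟩⟩
        rw [hb, sum_singleton, hs0, card_singleton]
        simp
      · by_contra h3
        push Not at h3
        exact hno (hclosed R h1 fun u hu => (((h3 u).2 hu)).le)
    · exact ⟨v, fun h => absurd h h2⟩
  choose f hf using hf
  obtain ⟨K, hKc, hK⟩ : ∃ K : ℕ, c < K ∧ ∀ u y, s u y ≤ K := by
    obtain ⟨k, hk⟩ := exists_nat_gt c
    refine ⟨k + ∑ u, ∑ y, s u y, ?_, fun u y => ?_⟩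
    · push_cast
      have h1 : (0 : ℝ) ≤ ∑ u, ∑ y, (s u y : ℝ) :=
        sum_nonneg fun u _ => sum_nonneg fun y _ => Nat.cast_nonneg _
      linarith
    · have h1 : s u y ≤ ∑ u, ∑ y, s u y := by
        refine le_trans ?_ (single_le_sum (f := fun u => ∑ y, s u y)
          (fun u _ => Nat.zero_le _) (mem_univ u))
        exact single_le_sum (f := fun y => s u y) (fun y _ => Nat.zero_le _) (mem_univ y)
      omega
  have hKc' : c < ((K + 2 : ℕ) : ℝ) := by push_cast; linarith
  have h1 := Yp_le (f := f) (v := v) (K := K + 2) (c := c) (lam := lam) (m := m) hKc' hf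
    (fun u y => (hK u y).trans (by omega)) hm hbig.le (K + 2) (fun _ => 0) {v}
    (singleton_nonempty v) (fun T => Nat.zero_le _) (fun T _ => le_rfl) (by
      intro y hy
      rw [mem_singleton] at hy
      subst hy
      exact ⟨_, 0, W.refl, fun T => le_rfl⟩)
  have h2 := Yp_large (c := c) (κ := lam - c) hc (by linarith) hnum (K := K + 2) (by omega) hKc'
  rw [card_singleton, Nat.cast_one] at h1
  have h3 := mul_lt_mul_of_pos_right h2 hrpos
  linarith

end Pool.Agent.H70.CR
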