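import Pool.Agent.H70.CR.Reach
import Pool.Agent.H70.FS.Few

/-!
# A closed walk or a large reach set, truncated multiplicities
-/

set_option autoImplicit false

namespace Pool.Agent.H70.CR

open Finset Pool.Agent.H81.RD Pool.Agent.H81.RE Pool.Agent.H70.SC Pool.Agent.H70.CP
  Pool.Agent.H70.FS

/-- the lower bound for the potential, `K` fixed -/
theorem Yp_gt {c κ : ℝ} (k : ℕ) (hκ : 0 < κ) (hc : 0 ≤ c) (hcK : c < ((k + 2 : ℕ) : ℝ))
    (hnum : ((k + 2 : ℕ) : ℝ) - c < κ * ∑ i ∈ range (k + 2),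
      (((k + 2 : ℕ) : ℝ) / (((k + 2 : ℕ) : ℝ) - c)) ^ i * (((k : ℝ) + 2 - i) / (k + 2))) :
    1 < Yp c κ (k + 2) (k + 2) (fun _ => 0) := by
  have hKc : (0 : ℝ) < ((k + 2 : ℕ) : ℝ) - c := by linarith
  rw [Yp_eq (by omega) hcK, div_mul_eq_mul_div, lt_div_iff₀ hKc, one_mul]
  refine hnum.trans_le (mul_le_mul_of_nonneg_left (sum_le_sum fun i hi => ?_) hκ.le)
  rw [mem_range] at hi
  exact mul_le_mul_of_nonneg_left (PP_zero_ge k i (by omega)) (by positivity)

variable {V : Type} [Fintype V] [DecidableEq V]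

/-- the vertices with a small inner sum -/
theorem exists_small {s : V → V → ℕ} (hs0 : ∀ u, s u u = 0) {c : ℝ}
    (hclosed : ∀ B : Finset V, 2 ≤ B.card →
      (∀ u ∈ B, c * ((B.card : ℝ) - 1) ≤ ∑ y ∈ B, (s u y : ℝ)) →
      ∃ (v : V) (N : ℕ → ℕ) (L : ℕ), 0 < L ∧ W s v N L v ∧ ∀ T : ℕ, N T ≤ T)
    (hno : ¬ ∃ (v : V) (N : ℕ → ℕ) (L : ℕ), 0 < L ∧ W s v N L v ∧ ∀ T : ℕ, N T ≤ T)
    (R : Finset V) (h2 : R.Nonempty) : ∃ u ∈ R, ∑ y ∈ R, (s u y : ℝ) ≤ c * ((R.card : ℝ) - 1) := by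
  have hR1 : 1 ≤ R.card := card_pos.mpr h2
  rcases Nat.lt_or_ge R.card 2 with h1 | h1
  · have h3 : R.card = 1 := by omega
    obtain ⟨b, hb⟩ := card_eq_one.mp h3
    refine ⟨b, by rw [hb]; exact mem_singleton_self b, ?_⟩
    rw [hb, sum_singleton, hs0, card_singleton]
    simp
  · by_contra h3
    push Not at h3
    exact hno (hclosed R h1 fun u hu => (h3 u hu).le)

/-- large reach sets -/
theorem reach_large {s : V → V → ℕ} (hs0 : ∀ u, s u u = 0) {c lam m : ℝ} {k : ℕ} (hc : 0 < c)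
    (hcK : c < ((k + 2 : ℕ) : ℝ)) (hlam : c < lam) (hK : ∀ u y, s u y ≤ k + 2)
    (hY : 1 < Yp c (lam - c) (k + 2) (k + 2) (fun _ => 0))
    (hf : ∀ R : Finset V, R.Nonempty → ∃ u ∈ R, ∑ y ∈ R, (s u y : ℝ) ≤ c * ((R.card : ℝ) - 1))
    (hm : ∀ u, m ≤ ∑ y, (s u y : ℝ)) (v : V) : m ≤ lam * (((reach s v).card : ℝ) - 1) := by
  by_contra hbig
  push Not at hbig
  have hr1 : (1 : ℝ) ≤ (reach s v).card := by
    exact_mod_cast card_pos.mpr ⟨v, self_mem_reach s v⟩
  have hm0 : 0 < m := by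
    have := mul_nonneg (hc.trans hlam).le (by linarith : (0 : ℝ) ≤ ((reach s v).card : ℝ) - 1)
    linarith
  have hrpos : 0 < ((reach s v).card : ℝ) - 1 := by
    have h4 : ∃ y, 0 < s v y := by
      by_contra h5
      push Not at h5
      have h6 : ∑ y, (s v y : ℝ) = 0 := sum_eq_zero fun y _ => by
        have := h5 y
        have h7 : s v y = 0 := by omega
        rw [h7]
        simp
      have h7 := hm v
      rw [h6] at h7
      linarith
    obtain ⟨y, hy⟩ := h4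
    have hne : v ≠ y := by
      rintro rfl
      rw [hs0] at hy
      omega
    have h5 : 2 ≤ (reach s v).card := by
      rw [← card_pair hne]
      refine card_le_card fun z hz => ?_
      rw [mem_insert, mem_singleton] at hz
      rcases hz with rfl | rfl
      · exact self_mem_reach s z
      · exact out_mem_reach hy
    have h6 : (2 : ℝ) ≤ (reach s v).card := by exact_mod_cast h5
    linarith
  have hf' : ∀ R : Finset V, ∃ u : V, R.Nonempty →
      u ∈ R ∧ ∑ y ∈ R, (s u y : ℝ) ≤ c * ((R.card : ℝ) - 1) := by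
    intro R
    by_cases h2 : R.Nonempty
    · obtain ⟨u, h3, h4⟩ := hf R h2
      exact ⟨u, fun _ => ⟨h3, h4⟩⟩
    · exact ⟨v, fun h => absurd h h2⟩
  choose f hf' using hf'
  have h1 := Yp_le (f := f) (v := v) (K := k + 2) (c := c) (lam := lam) (m := m) hcK hf'
    hK hm hbig.le (k + 2) (fun _ => 0) {v}
    (singleton_nonempty v) (fun T => Nat.zero_le _) (fun T _ => le_rfl) (by
      intro y hy
      rw [mem_singleton] at hy
      subst hy
      exact ⟨_, 0, W.refl, fun T => le_rfl⟩)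
  rw [card_singleton, Nat.cast_one] at h1
  have h3 := mul_lt_mul_of_pos_right hY hrpos
  linarith

theorem reach_mono {s s' : V → V → ℕ} (h : ∀ u y, s' u y ≤ s u y) (v : V) :
    reach s' v ⊆ reach s v := by
  intro y hy
  obtain ⟨N, M, hW, hN⟩ := mem_reach.mp hy
  obtain ⟨N', h1, h2⟩ := W_of_le h hW
  exact mem_reach.mpr ⟨N', M, h1, fun T => (h2 T).trans (hN T)⟩

/-- the truncated form, from a certificate -/
theorem reach_of_check {k p q U : ℕ} {S : List ℕ} {G : List (ℕ × ℕ)} {M Q : List (ℕ × ℕ × ℕ)}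
    (hc : check (k + 2) p q U S G M Q = true) (hq : 0 < q) {s : V → V → ℕ} (hs0 : ∀ u, s u u = 0)
    {lam m : ℝ} (hp : 0 < p) (hcK : (p : ℝ) / q < ((k + 2 : ℕ) : ℝ)) (hlam : (p : ℝ) / q < lam)
    (hnum : ((k + 2 : ℕ) : ℝ) - (p : ℝ) / q < (lam - (p : ℝ) / q) * ∑ i ∈ range (k + 2),
      (((k + 2 : ℕ) : ℝ) / (((k + 2 : ℕ) : ℝ) - (p : ℝ) / q)) ^ i * (((k : ℝ) + 2 - i) / (k + 2)))
    (hm : ∀ u, m ≤ ∑ y, ((min (s u y) (k + 2) : ℕ) : ℝ)) :
    (∃ (v : V) (N : ℕ → ℕ) (L : ℕ), 0 < L ∧ W s v N L v ∧ ∀ T : ℕ, N T ≤ T) ∨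
      ∀ v : V, m ≤ lam * (((reach s v).card : ℝ) - 1) := by
  rw [or_iff_not_imp_left]
  intro hno v
  have hc0 : (0 : ℝ) < (p : ℝ) / q := by positivity
  have hs0' : ∀ u, min (s u u) (k + 2) = 0 := fun u => by rw [hs0, Nat.zero_min]
  have h1 := reach_large (s := fun u y => min (s u y) (k + 2)) hs0' hc0 hcK hlam
    (fun u y => min_le_right _ _) (Yp_gt k (by linarith) hc0.le hcK hnum)
    (exists_small hs0' (fun B hB2 hB => closed_of_check hc hq hs0' (fun u y => min_le_right _ _)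
      B hB2 hB) fun h => hno (closed_of_le (fun u y => min_le_left _ _) h)) hm v
  have h2 : ((reach (fun u y => min (s u y) (k + 2)) v).card : ℝ) ≤ (reach s v).card := by
    exact_mod_cast card_le_card (reach_mono (fun u y => min_le_left _ _) v)
  nlinarith

/-- at most two labels: the inner sums -/
theorem exists_small_two {s : V → V → ℕ} (hs0 : ∀ u, s u u = 0) (hK : ∀ u y, s u y ≤ 2)
    (hno : ¬ ∃ (v : V) (N : ℕ → ℕ) (L : ℕ), 0 < L ∧ W s v N L v ∧ ∀ T : ℕ, N T ≤ T)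
    (R : Finset V) (hR : R.Nonempty) : ∃ u ∈ R, ∑ y ∈ R, (s u y : ℝ) ≤ 1 * ((R.card : ℝ) - 1) := by
  have h0 : ∀ u y, s u y + s y u ≤ 2 := by
    intro u y
    by_contra hcon
    push Not at hcon
    have h1 := hK u y
    have h2 := hK y u
    refine hno ⟨u, _, _, ?_, W.step (W.step (W.refl (s := s) (v := u)) (show 0 < s u y by omega))
      (show 0 < s y u by omega), fun T => ?_⟩
    · omega
    · split_ifs <;> omega
  by_contra hcon
  push Not at hcon
  have hR1 : 1 ≤ R.card := card_pos.mpr hR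
  have h1 : ∀ u ∈ R, R.card ≤ ∑ y ∈ R, s u y := by
    intro u hu
    have h2 := hcon u hu
    have h3 : (R.card : ℝ) < ((∑ y ∈ R, s u y : ℕ) : ℝ) + 1 := by
      push_cast
      linarith
    have h4 : R.card < ∑ y ∈ R, s u y + 1 := by exact_mod_cast h3
    omega
  have h2 : R.card * R.card ≤ ∑ u ∈ R, ∑ y ∈ R, s u y := by
    calc R.card * R.card = ∑ u ∈ R, R.card := by rw [sum_const, smul_eq_mul]
      _ ≤ _ := sum_le_sum h1
  have h3 : ∑ u ∈ R, ∑ y ∈ R, (s u y + s y u) ≤ ∑ u ∈ R, 2 * (R.card - 1) := by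
    refine sum_le_sum fun u hu => ?_
    calc ∑ y ∈ R, (s u y + s y u) ≤ ∑ y ∈ R.erase u, 2 := by
          rw [← add_sum_erase R _ hu, hs0]
          simp only [add_zero, zero_add]
          exact sum_le_sum fun y _ => h0 u y
      _ = 2 * (R.card - 1) := by rw [sum_const, card_erase_of_mem hu, smul_eq_mul, mul_comm]
  have h4 : ∑ u ∈ R, ∑ y ∈ R, (s u y + s y u) =
      ∑ u ∈ R, ∑ y ∈ R, s u y + ∑ u ∈ R, ∑ y ∈ R, s u y := by
    simp only [sum_add_distrib]
    congr 1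
    exact sum_comm
  rw [h4, sum_const, smul_eq_mul] at h3
  obtain ⟨m, hm⟩ := Nat.exists_eq_succ_of_ne_zero (by omega : R.card ≠ 0)
  rw [hm] at h2 h3
  simp only [Nat.succ_eq_add_one, Nat.add_sub_cancel] at h2 h3
  nlinarith

/-- the truncated form for two labels -/
theorem reach_two {s : V → V → ℕ} (hs0 : ∀ u, s u u = 0) {m : ℝ}
    (hm : ∀ u, m ≤ ∑ y, ((min (s u y) 2 : ℕ) : ℝ)) :
    (∃ (v : V) (N : ℕ → ℕ) (L : ℕ), 0 < L ∧ W s v N L v ∧ ∀ T : ℕ, N T ≤ T) ∨
      ∀ v : V, m ≤ 3 / 2 * (((reach s v).card : ℝ) - 1) := by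
  rw [or_iff_not_imp_left]
  intro hno v
  have hs0' : ∀ u, min (s u u) 2 = 0 := fun u => by rw [hs0, Nat.zero_min]
  have h2 : ((reach (fun u y => min (s u y) 2) v).card : ℝ) ≤ (reach s v).card := by
    exact_mod_cast card_le_card (reach_mono (fun u y => min_le_left _ _) v)
  have h3 : (1 : ℝ) ≤ (reach (fun u y => min (s u y) 2) v).card := by
    exact_mod_cast card_pos.mpr ⟨v, self_mem_reach _ v⟩
  have h4 : ∀ lam : ℝ, 3 / 2 < lam →
      m ≤ lam * (((reach (fun u y => min (s u y) 2) v).card : ℝ) - 1) := by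
    intro lam hlam
    refine reach_large (s := fun u y => min (s u y) 2) hs0' (c := 1) (k := 0) one_pos
      (by norm_num) (by linarith) (fun u y => min_le_right _ _)
      (Yp_gt 0 (by linarith) zero_le_one (by norm_num) ?_)
      (exists_small_two hs0' (fun u y => min_le_right _ _) fun h =>
        hno (closed_of_le (fun u y => min_le_left _ _) h)) hm v
    norm_num [sum_range_succ]
    linarith
  by_contra hcon
  push Not at hcon
  obtain ⟨r, hr⟩ : ∃ r, r = ((reach (fun u y => min (s u y) 2) v).card : ℝ) - 1 := ⟨_, rfl⟩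
  rw [← hr] at h4
  have h5 : 3 / 2 * r < m := by
    rw [hr]
    linarith
  have h6 := h4 (3 / 2 + (m - 3 / 2 * r) / (2 * (r + 1))) (by
    have : 0 < (m - 3 / 2 * r) / (2 * (r + 1)) := div_pos (by linarith) (by linarith)
    linarith)
  have h7 : (m - 3 / 2 * r) / (2 * (r + 1)) * r ≤ (m - 3 / 2 * r) / 2 := by
    rw [div_mul_eq_mul_div, div_le_div_iff₀ (by linarith) (by norm_num)]
    nlinarith
  linarith

end Pool.Agent.H70.CR
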